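import Pool.Agent.U345.ZN2

/-!
# Shifted moments of zeta with arbitrary shifts which may depend on the height

Kösters' question concerns the mean of `ζ(1/2 + iα/log T + iy)^k ζ(1/2 + iα/log T - iy)^k`, with a constant shift `α`, compared with
a unitary matrix integral. Here the shifts are complex, different in all the `2k` factors, and arbitrary functions of `y`, bounded by
`A / log T`. We use Gaussian windows: `1 ≤ U ≤ T / log T` and `moment k T U` is the integral of `|ζ(1/2 + iy)|^(2k)` with the weight
`exp (-((y - T) / U)^2)` (so `U` may be bounded, e.g. `U = 1`).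

Theorem (unconditional, all `k ≥ 1`).
(1) The shifted moment differs from the moment by at most a constant times `δ` times the moment if all the shifts are bounded by
`δ / log T`, `δ ≤ A`, however they depend on the height: the shifted moments are at most of the order of the moment, and they are
asymptotically equal to it when the shifts are `o(1 / log T)`.
(2) More generally, let `ν` be any measure on the line which gives at most the mass `B / log T` to every interval of length `1 / log T`
(Lebesgue measure, or `1 / log T` times the counting measure on points with bounded density on the scale `1 / log T`, ...). Then the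
integral with respect to `ν` of the product of `2k` derivatives `|ζ^(d_i)|`, of arbitrary orders `d_i`, at the points
`1/2 + iy + z_i(y) / log T` is at most a constant times `B (log T)^(d_1 + ... + d_2k)` times the moment. So the local maximal functions
of zeta and of all its derivatives have moments of the expected order, in comparison with the `2k`-th moment of zeta.

The order of magnitude of the moment is not known for `k ≥ 3` and is not used; under the Riemann hypothesis upper bounds for moments with
constant shifts have been obtained by many authors (Chandee, Ng, Shen, Wong, Curran, ...).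

Proof. The sum over the cells of length `1 / log T` of the maxima of `|ζ|^(2k)` over boxes of size `1 / log T` around the critical line is
bounded by a constant times `log T` times the moment: Sobolev's inequality in both directions and the mean square inequalities for all
derivatives of `ζ^k` on all lines near the critical line (convexity and the functional equation of the means). Then Cauchy's inequality
for the derivatives.
-/

set_option autoImplicit false

namespace Pool.Agent.Results.MP_069854_nt.ArbitraryShifts

open MeasureTheory Filter Topology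

/-- the point `1/2 + iy` -/
noncomputable def point (y : ℝ) : ℂ := ((1 / 2 : ℝ) : ℂ) + y * Complex.I

/-- the Gaussian weight of the window of width `U` at the height `T` -/
noncomputable def weight (T U y : ℝ) : ℝ := Real.exp (-((y - T) / U) ^ 2)

/-- the moment `∫ |ζ(1/2 + iy)|^(2k) exp (-((y - T) / U)^2) dy` -/
noncomputable def moment (k : ℕ) (T U : ℝ) : ℝ := ∫ y : ℝ, ‖riemannZeta (point y)‖ ^ (2 * k) * weight T U y

/-- the product of the `ζ(1/2 + iy + z_i(y) / log T) ζ(1/2 - iy + w_i(y) / log T)` over `i < k`, times the weight -/
noncomputable def shifted (k : ℕ) (T U : ℝ) (z w : Fin k → ℝ → ℂ) (y : ℝ) : ℂ :=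
  (∏ i, (riemannZeta (point y + z i y / Real.log T) * riemannZeta (point (-y) + w i y / Real.log T))) *
    (weight T U y : ℂ)

/-- Let `k ≥ 1` and `A ≥ 0`.
(1) There are `C` and `T₀` such that for all `T ≥ T₀`, `1 ≤ U ≤ T / log T`, `0 ≤ δ ≤ A` and all measurable functions `z_i`, `w_i` with
values of modulus at most `δ` the shifted integrand is integrable and its integral differs from the moment by at most `C δ moment`.
(2) For all orders `d_1, ..., d_2k` there are `C` and `T₀` such that for all `T ≥ T₀`, `1 ≤ U ≤ T / log T`, `B ≥ 0`, all measures `ν` on the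
line with `ν [x, x + 1 / log T] ≤ B / log T` for all `x`, and all functions `z_1, ..., z_2k` with values of modulus at most `A`, the
integral (the lower Lebesgue integral, if the functions are not measurable) of `∏_i |ζ^(d_i)(1/2 + iy + z_i(y) / log T)|` with the weight and with respect to `ν` is at most
`C B (log T)^(d_1 + ... + d_2k) moment`. -/
theorem result (k : ℕ) (hk : 1 ≤ k) (A : ℝ) (hA : 0 ≤ A) :
    (∃ C T₀ : ℝ, ∀ T : ℝ, T₀ ≤ T → ∀ U : ℝ, 1 ≤ U → U ≤ T / Real.log T → ∀ δ : ℝ, 0 ≤ δ → δ ≤ A →
      ∀ z w : Fin k → ℝ → ℂ, (∀ i, Measurable (z i)) → (∀ i, Measurable (w i)) →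
        (∀ i y, ‖z i y‖ ≤ δ) → (∀ i y, ‖w i y‖ ≤ δ) →
        Integrable (shifted k T U z w) ∧
          ‖(∫ y : ℝ, shifted k T U z w y) - (moment k T U : ℂ)‖ ≤ C * δ * moment k T U) ∧
    ∀ d : Fin (2 * k) → ℕ, ∃ C T₀ : ℝ, ∀ T : ℝ, T₀ ≤ T → ∀ U : ℝ, 1 ≤ U → U ≤ T / Real.log T →
      ∀ (B : ℝ) (ν : Measure ℝ), 0 ≤ B →
        (∀ x : ℝ, ν (Set.Icc x (x + 1 / Real.log T)) ≤ ENNReal.ofReal (B / Real.log T)) →
        ∀ z : Fin (2 * k) → ℝ → ℂ, (∀ i y, ‖z i y‖ ≤ A) →
          ∫⁻ y, ENNReal.ofReal ((∏ i, ‖iteratedDeriv (d i) riemannZeta (point y + z i y / Real.log T)‖) *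
            weight T U y) ∂ν ≤
          ENNReal.ofReal (C * B * Real.log T ^ (∑ i, d i) * moment k T U) := by
  constructor
  · obtain ⟨C, -, h1⟩ := U345Z.small_shifts k hk hA
    obtain ⟨T1, hT1⟩ := eventually_atTop.mp h1
    refine ⟨C, max 3 T1, fun T hT U hU1 hU2 δ hδ0 hδ z w hzm hwm hz hw => ?_⟩
    exact hT1 T (le_of_max_le_right hT) U ⟨le_of_max_le_left hT, hU1, hU2⟩ δ hδ0 hδ z w hzm hwm hz hw
  · intro d
    obtain ⟨C, -, h1⟩ := U345Z.carleson k hk hA d
    obtain ⟨T1, hT1⟩ := eventually_atTop.mp h1
    refine ⟨C, max 3 T1, fun T hT U hU1 hU2 B ν hB hν z hz => ?_⟩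
    exact hT1 T (le_of_max_le_right hT) U ⟨le_of_max_le_left hT, hU1, hU2⟩ B ν hB hν z hz

end Pool.Agent.Results.MP_069854_nt.ArbitraryShifts
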