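import Pool.Agent.U325.DS.Frost
import Pool.Agent.R461.HM.Seq
import Pool.Agent.R280.HC.FL
import Pool.Agent.R280.HC.C0
import Pool.Agent.R280.HC.C0H
import Pool.Agent.R280.HC.WL
import Pool.Agent.R280.HC.SA
import Pool.Agent.R280.HC.SB

set_option autoImplicit false

/-!
# MP_069854_nt: shifted moments of zeta over fractal sets of heights

The heights are `T x`, with `x` distributed by an arbitrary Frostman measure `μ` of dimension `s > 0` on `[1,2]`. For all `T`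
outside a set of small measure the shifted moments `Q_k` satisfy the asymptotics of the problem when tested against functions
of `α` with Fourier support below `s/2`, and the means of the local `2k`-th moments have at least the order `(log T)^(k^2)`.
Every compact set of heights of dimension `> s` has points with large local moments at most dilates.
-/

namespace Pool.Agent.Results.MP_069854_nt.FractalHeights

open Complex MeasureTheory Filter Topology Set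
open scoped ContDiff ENNReal
open Pool.Agent.R461.HM

noncomputable section

/-- the shifted moment `Q_k(α,T)` with heights `T x`, `x` distributed by `μ` -/
def Qmu (k : ℕ) (μ : Measure ℝ) (α T : ℝ) : ℂ :=
  ((Real.log T : ℂ) ^ (k ^ 2))⁻¹ *
    ∫ x, riemannZeta (1 / 2 + I * α / Real.log T + I * ((T * x : ℝ) : ℂ)) ^ k *
      riemannZeta (1 / 2 + I * α / Real.log T - I * ((T * x : ℝ) : ℂ)) ^ k ∂μ

/-- the weighted mean of `|ζ(1/2 + i(t + v))|^(2k)` over `v` at the scale `1 / log T` -/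
def localMoment (k N : ℕ) (T t : ℝ) : ℝ≥0∞ :=
  ∫⁻ v : ℝ, ENNReal.ofReal (‖riemannZeta (1 / 2 + I * (t + v))‖ ^ (2 * k) * (Real.log T / (1 + Real.log T * |v|) ^ N))

/-- `φ(α) = ∫ ψ(ξ) e^{iξα} dξ` -/
def phi (ψ : ℝ → ℂ) (α : ℝ) : ℂ := ∫ ξ : ℝ, ψ ξ * exp (I * ξ * α)

/-- the arithmetic factor `a_k` -/
def arith (k : ℕ) : ℝ :=
  ∏' p : Nat.Primes, ((1 - 1 / (p : ℝ)) ^ (k ^ 2) * ∑' m : ℕ, ((m + k - 1).choose m : ℝ) ^ 2 * (1 / (p : ℝ)) ^ m)

/-- the limit `2π a_k ∫_0^∞ u^(k²-1)/(k²-1)! ψ(2u) du` -/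
def limitValue (k : ℕ) (ψ : ℝ → ℂ) : ℂ :=
  2 * Real.pi * arith k * ∫ u in Ioi (0:ℝ), (u : ℂ) ^ (k ^ 2 - 1) / (k ^ 2 - 1).factorial * ψ (2 * u)

/-- probability measures on `[1,2]` -/
def OnInterval (μ : Measure ℝ) : Prop := IsProbabilityMeasure μ ∧ ∀ᵐ x ∂μ, x ∈ Icc (1:ℝ) 2

/-- Frostman measures of dimension `s` with constant `K` on `[1,2]` -/
def Frostman (s K : ℝ) (μ : Measure ℝ) : Prop :=
  OnInterval μ ∧ ∀ x r : ℝ, 0 < r → μ (Metric.closedBall x r) ≤ ENNReal.ofReal (K * r ^ s)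

lemma frostman_nonneg {s K : ℝ} {μ : Measure ℝ} (h : Frostman s K μ) : 0 ≤ K := by
  by_contra hK
  rw [not_le] at hK
  have := h.1.1
  have h1 := h.2 0 3 (by norm_num)
  rw [ENNReal.ofReal_of_nonpos (by
    have : (0:ℝ) ≤ 3 ^ s := by positivity
    nlinarith)] at h1
  have h2 : ∀ᵐ x ∂μ, x ∈ Metric.closedBall (0:ℝ) 3 := by
    filter_upwards [h.1.2] with x hx
    rw [Metric.mem_closedBall, Real.dist_eq, sub_zero, abs_le]
    constructor <;> linarith [hx.1, hx.2]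
  have h3 : μ (Metric.closedBall (0:ℝ) 3) = 1 := by
    rw [prob_compl_eq_zero_iff Metric.isClosed_closedBall.measurableSet |>.symm]
    exact h2
  rw [h3] at h1
  simp at h1

/-- the heights of Frostman measures have small character integrals for most dilates -/
lemma heights {s θ : ℝ} (hs0 : 0 < s) (hs : s < 1) (hθ : 0 ≤ θ) (hθs : 4 * θ < s) :
    ∃ η : ℝ, 0 < η ∧ ∀ K : ℝ, ∃ X₀ : ℝ, Real.exp 1 ≤ X₀ ∧ ∀ X : ℝ, X₀ ≤ X → ∀ μ : Measure ℝ, Frostman s K μ →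
      ∃ A : Set ℝ, MeasurableSet A ∧ volume A ≤ ENNReal.ofReal (X ^ (1 - η)) ∧ ∀ T ∈ Icc X (2 * X), T ∉ A →
        Heights T (T ^ (2 * θ)) (T ^ (-(s / 4))) (μ.map (fun x => T * x)) := by
  set ρ : ℝ := s / 2 - 2 * θ with hρ
  have hρ0 : 0 < ρ := by rw [hρ]; linarith
  set δ : ℝ := ρ / (8 * (θ + 1)) with hδ
  have hδ0 : 0 < δ := by rw [hδ]; positivity
  have hδe : 2 * θ * (1 + δ) ≤ 2 * θ + ρ / 4 := by
    have : θ * δ ≤ ρ / 8 := by
      rw [hδ, mul_div_assoc', div_le_div_iff₀ (by positivity) (by norm_num)]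
      nlinarith
    nlinarith
  refine ⟨ρ / 8, by positivity, fun K => ?_⟩
  by_cases hK : 0 ≤ K
  swap
  · exact ⟨Real.exp 1, le_rfl, fun X _ μ hμ => absurd (frostman_nonneg hμ) hK⟩
  obtain ⟨X₁, hX₁, hmost⟩ := U325.DS.most hs0 hs hK hδ0 (show 0 < ρ / 8 by positivity)
  have t1 : Tendsto (fun T : ℝ => 2 * T ^ (-(ρ / 4))) atTop (𝓝 (2 * 0)) :=
    (tendsto_rpow_neg_atTop (by positivity)).const_mul _
  rw [mul_zero] at t1
  obtain ⟨X₂, hX₂⟩ := eventually_atTop.mp (t1.eventually (gt_mem_nhds (show (0:ℝ) < 1 by norm_num)))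
  refine ⟨max (Real.exp 1) (max X₁ X₂), le_max_left _ _, fun X hX μ hμ => ?_⟩
  have hXe : Real.exp 1 ≤ X := (le_max_left _ _).trans hX
  have hX1 : 1 ≤ X := by have := Real.add_one_le_exp 1; linarith
  have hX0 : 0 < X := by linarith
  have hXa : X₁ ≤ X := (le_max_left _ _).trans ((le_max_right _ _).trans hX)
  have hXb : X₂ ≤ X := (le_max_right _ _).trans ((le_max_right _ _).trans hX)
  obtain ⟨A, hAm, hA, hT⟩ := hmost X hXa μ ⟨hμ.1.1, hμ.1.2, hμ.2⟩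
  refine ⟨A, hAm, hA, fun T hTX hTA => ?_⟩
  have hTX1 : X ≤ T := hTX.1
  have hT0 : 0 < T := by linarith
  have hT1 : 1 ≤ T := by linarith
  have hpr := hμ.1.1
  have hme : MeasurableEmbedding (fun x : ℝ => T * x) := (Homeomorph.mulLeft₀ T hT0.ne').measurableEmbedding
  refine ⟨Measure.isProbabilityMeasure_map hme.measurable.aemeasurable, ?_, fun m n hm hn hmn hY => ?_⟩
  · refine (ae_map_iff (p := fun t => t ∈ Icc T (2 * T)) hme.measurable.aemeasurable measurableSet_Icc).2 ?_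
    filter_upwards [hμ.1.2] with x hx
    exact ⟨by nlinarith [hx.1], by nlinarith [hx.2]⟩
  · have hm0 : (0:ℝ) < m := by exact_mod_cast hm
    have hn0 : (0:ℝ) < n := by exact_mod_cast hn
    have h1 := hT T hTX hTA m n hm hn hmn
    set lam := Real.log ((m:ℝ) / n) with hlam
    have hp : 1 ≤ 1 + 1 / |lam| := by
      have : 0 ≤ 1 / |lam| := by positivity
      linarith
    rw [hme.integral_map]
    have e2 : (∫ x : ℝ, exp (I * (((T * x : ℝ) : ℂ) * lam)) ∂μ) = U325.DS.ft μ (T * lam) := by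
      unfold U325.DS.ft
      congr 1; funext x
      congr 1
      push_cast; ring
    rw [e2]
    have h8 : ‖U325.DS.ft μ (T * lam)‖ ^ 2 ≤ (T ^ (-(s / 4)) * (1 + 1 / |lam|)) ^ 2 := by
      refine h1.trans ?_
      have e1 : ((m : ℝ) * n) ^ (1 + δ) ≤ T ^ (2 * θ + ρ / 4) := by
        calc ((m : ℝ) * n) ^ (1 + δ) ≤ (T ^ (2 * θ)) ^ (1 + δ) := Real.rpow_le_rpow (by positivity) hY (by linarith)
          _ = T ^ (2 * θ * (1 + δ)) := (Real.rpow_mul hT0.le _ _).symm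
          _ ≤ _ := Real.rpow_le_rpow_of_exponent_le hT1 hδe
      have e3 : X ^ (-s + 2 * (ρ / 8)) ≤ 2 * T ^ (-s + ρ / 4) := by
        have h9 : -s + ρ / 4 ≤ 0 := by rw [hρ]; linarith
        have h10 : T / 2 ≤ X := by linarith [hTX.2]
        calc X ^ (-s + 2 * (ρ / 8)) = X ^ (-s + ρ / 4) := by congr 1; ring
          _ ≤ (T / 2) ^ (-s + ρ / 4) := Real.rpow_le_rpow_of_nonpos (by positivity) h10 h9
          _ = T ^ (-s + ρ / 4) * 2 ^ (s - ρ / 4) := by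
              rw [Real.div_rpow hT0.le (by norm_num), div_eq_mul_inv, ← Real.rpow_neg (by norm_num)]
              congr 2; ring
          _ ≤ T ^ (-s + ρ / 4) * 2 ^ (1:ℝ) := by
              refine mul_le_mul_of_nonneg_left ?_ (by positivity)
              exact Real.rpow_le_rpow_of_exponent_le (by norm_num) (by linarith)
          _ = _ := by rw [Real.rpow_one]; ring
      calc X ^ (-s + 2 * (ρ / 8)) * ((m : ℝ) * n) ^ (1 + δ) * (1 + 1 / |lam|)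
          ≤ (2 * T ^ (-s + ρ / 4)) * T ^ (2 * θ + ρ / 4) * (1 + 1 / |lam|) := by gcongr
        _ = (2 * T ^ (-(ρ / 2))) * T ^ (-(s / 2)) * (1 + 1 / |lam|) := by
            have e5 : T ^ (-s + ρ / 4) * T ^ (2 * θ + ρ / 4) = T ^ (-(ρ / 2)) * T ^ (-(s / 2)) := by
              rw [← Real.rpow_add hT0, ← Real.rpow_add hT0]
              congr 1
              rw [hρ]; ring
            calc _ = 2 * (T ^ (-s + ρ / 4) * T ^ (2 * θ + ρ / 4)) * (1 + 1 / |lam|) := by ring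
              _ = _ := by rw [e5]; ring
        _ ≤ 1 * T ^ (-(s / 2)) * (1 + 1 / |lam|) ^ 2 := by
            have e6 : (1 + 1 / |lam|) ≤ (1 + 1 / |lam|) ^ 2 := le_self_pow₀ hp (by norm_num)
            have e7 : 2 * T ^ (-(ρ / 2)) ≤ 1 := by
              have h11 := (hX₂ T (hXb.trans hTX1)).le
              have h12 : T ^ (-(ρ / 2)) ≤ T ^ (-(ρ / 4)) := Real.rpow_le_rpow_of_exponent_le hT1 (by linarith)
              linarith
            gcongr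
        _ = _ := by
            have e9 : T ^ (-(s / 2)) = (T ^ (-(s / 4))) ^ 2 := by
              rw [← Real.rpow_natCast, ← Real.rpow_mul hT0.le]
              congr 1; push_cast; ring
            rw [e9]; ring
    exact (pow_le_pow_iff_left₀ (norm_nonneg _) (by positivity) (by norm_num)).1 h8

lemma Qn_map (k : ℕ) (μ : Measure ℝ) (α : ℝ) {T : ℝ} (hT : T ≠ 0) : Qn k (μ.map (fun x => T * x)) α T = Qmu k μ α T := by
  have hme : MeasurableEmbedding (fun x : ℝ => T * x) := (Homeomorph.mulLeft₀ T hT).measurableEmbedding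
  unfold Qn Qmu
  rw [hme.integral_map]

lemma lint_map (k N : ℕ) (μ : Measure ℝ) {T : ℝ} (hT : T ≠ 0) :
    ∫⁻ t, loc k N T t ∂(μ.map (fun x => T * x)) = ∫⁻ x, localMoment k N T (T * x) ∂μ := by
  have hme : MeasurableEmbedding (fun x : ℝ => T * x) := (Homeomorph.mulLeft₀ T hT).measurableEmbedding
  rw [hme.lintegral_map]
  rfl

lemma phi_eq (ψ : ℝ → ℂ) (α : ℝ) : W182.KO.P ψ (α * I) = phi ψ α := by
  unfold phi W182.KO.P
  congr 1; funext ξ
  congr 2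
  ring

/-- Let `0 < s < 1`, `k ≥ 1`. (1) For smooth compactly supported `ψ` vanishing above `2θ`, `4θ < s`, there is `η > 0` such that
for all `K`, `ε > 0`, all large `X` and all Frostman measures `μ` of dimension `s` with constant `K` on `[1,2]`, for all
`T ∈ [X, 2X]` outside a set of measure at most `X^(1-η)` the integral of `φ(α) Q_k(α,T)` with heights distributed by `μ` is
within `ε` of `2π a_k ∫_0^∞ u^(k²-1)/(k²-1)! ψ(2u) du`. (2) For every `N` there are `c, η > 0` such that in the same sense the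
mean of the local moments over the heights `T x` is at least `c (log T)^(k²)`, and for every compact `E ⊆ [1,2]` with
`dim E > s`, all large `X` and `T ∈ [X,2X]` outside a set of measure at most `X^(1-η)` there is `x ∈ E` with local moment at
least `c (log T)^(k²)` at `T x`. (3) If the Fourier transforms of the measures `μ` are at most `K |u|^(-σ)` for `|u| ≥ 1`,
`0 < σ ≤ 1`, then the limit of (1), for `θ < σ`, and a lower bound as in (2) hold for all large `T` without exceptions. -/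
theorem result (s : ℝ) (hs0 : 0 < s) (hs : s < 1) (k : ℕ) (hk : 1 ≤ k) :
    (∀ ψ : ℝ → ℂ, ContDiff ℝ ∞ ψ → HasCompactSupport ψ → (∃ θ : ℝ, 4 * θ < s ∧ ∀ ξ : ℝ, 2 * θ < ξ → ψ ξ = 0) →
      ∃ η : ℝ, 0 < η ∧ ∀ K ε : ℝ, 0 < ε → ∃ X₀ : ℝ, ∀ X : ℝ, X₀ ≤ X → ∀ μ : Measure ℝ, Frostman s K μ →
        ∃ A : Set ℝ, MeasurableSet A ∧ volume A ≤ ENNReal.ofReal (X ^ (1 - η)) ∧ ∀ T ∈ Icc X (2 * X), T ∉ A →
          Integrable (fun α : ℝ => phi ψ α * Qmu k μ α T) ∧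
          ‖(∫ α : ℝ, phi ψ α * Qmu k μ α T) - limitValue k ψ‖ ≤ ε) ∧
    (∀ N : ℕ, ∃ c η : ℝ, 0 < c ∧ 0 < η ∧
      (∀ K : ℝ, ∃ X₀ : ℝ, ∀ X : ℝ, X₀ ≤ X → ∀ μ : Measure ℝ, Frostman s K μ →
        ∃ A : Set ℝ, MeasurableSet A ∧ volume A ≤ ENNReal.ofReal (X ^ (1 - η)) ∧ ∀ T ∈ Icc X (2 * X), T ∉ A →
          ENNReal.ofReal (c * Real.log T ^ (k ^ 2)) ≤ ∫⁻ x, localMoment k N T (T * x) ∂μ) ∧
      (∀ E : Set ℝ, IsCompact E → E ⊆ Icc 1 2 → ENNReal.ofReal s < dimH E → ∃ X₀ : ℝ, ∀ X : ℝ, X₀ ≤ X →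
        ∃ A : Set ℝ, MeasurableSet A ∧ volume A ≤ ENNReal.ofReal (X ^ (1 - η)) ∧ ∀ T ∈ Icc X (2 * X), T ∉ A →
          ∃ x ∈ E, ENNReal.ofReal (c * Real.log T ^ (k ^ 2)) ≤ localMoment k N T (T * x))) ∧
    (∀ σ : ℝ, 0 < σ → σ ≤ 1 →
      (∀ ψ : ℝ → ℂ, ContDiff ℝ ∞ ψ → HasCompactSupport ψ → (∃ θ : ℝ, θ < σ ∧ ∀ ξ : ℝ, 2 * θ < ξ → ψ ξ = 0) →
        ∀ K ε : ℝ, 0 < ε → ∃ T₀ : ℝ, ∀ T : ℝ, T₀ ≤ T → ∀ μ : Measure ℝ, OnInterval μ →
        (∀ u : ℝ, 1 ≤ |u| → ‖∫ x : ℝ, exp (I * (u * x)) ∂μ‖ ≤ K * |u| ^ (-σ)) →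
          Integrable (fun α : ℝ => phi ψ α * Qmu k μ α T) ∧
          ‖(∫ α : ℝ, phi ψ α * Qmu k μ α T) - limitValue k ψ‖ ≤ ε) ∧
      (∀ N : ℕ, ∃ c : ℝ, 0 < c ∧ ∀ K : ℝ, ∃ T₀ : ℝ, ∀ T : ℝ, T₀ ≤ T → ∀ μ : Measure ℝ, OnInterval μ →
        (∀ u : ℝ, 1 ≤ |u| → ‖∫ x : ℝ, exp (I * (u * x)) ∂μ‖ ≤ K * |u| ^ (-σ)) →
          ENNReal.ofReal (c * Real.log T ^ (k ^ 2)) ≤ ∫⁻ x, localMoment k N T (T * x) ∂μ)) := by
  have hlim : ∀ {θ θ' : ℝ}, 0 ≤ θ → θ < θ' → ∀ {ψ : ℝ → ℂ}, ContDiff ℝ ∞ ψ → HasCompactSupport ψ →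
      (∀ ξ : ℝ, 2 * θ < ξ → ψ ξ = 0) → ∀ ε : ℝ, 0 < ε → ∃ T₀ : ℝ, Real.exp 1 ≤ T₀ ∧ ∀ T : ℝ, T₀ ≤ T → ∀ μ : Measure ℝ,
      Heights T (T ^ (2 * θ)) (T ^ (-θ')) (μ.map (fun x => T * x)) →
      Integrable (fun α : ℝ => phi ψ α * Qmu k μ α T) ∧
      ‖(∫ α : ℝ, phi ψ α * Qmu k μ α T) - limitValue k ψ‖ ≤ ε := by
    intro θ θ' h0 h1 ψ hψ hc hs ε hε
    obtain ⟨T₀, hT₀, hl⟩ := limit_form h0 h1 hψ hc hs hk ε hε
    refine ⟨T₀, hT₀, fun T hT μ hH => ?_⟩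
    have hT0 : 0 < T := (Real.exp_pos 1).trans_le (hT₀.trans hT)
    obtain ⟨g1, g2⟩ := hl T hT _ hH
    simp only [phi_eq, Qn_map k μ _ hT0.ne'] at g1 g2
    exact ⟨g1, g2⟩
  refine ⟨fun ψ hψ hc ⟨θ, hθ, hψ0⟩ => ?_, fun N => ?_, fun σ hσ0 hσ1 => ⟨fun ψ hψ hc ⟨θ, hθ, hψ0⟩ K ε hε => ?_, fun N => ?_⟩⟩
  · obtain ⟨η, hη, hH⟩ := heights hs0 hs (θ := max θ 0) (le_max_right _ _) (by
      rw [mul_max_of_nonneg _ _ (by norm_num)]; exact max_lt hθ (by simpa using hs0))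
    refine ⟨η, hη, fun K ε hε => ?_⟩
    obtain ⟨X₀, hX₀, hH1⟩ := hH K
    obtain ⟨T₀, hT₀, hl⟩ := hlim (θ := max θ 0) (θ' := s / 4) (le_max_right _ _) (max_lt (by linarith) (by linarith)) hψ hc
      (fun ξ hξ => hψ0 ξ (lt_of_le_of_lt (by have := le_max_left θ 0; linarith) hξ)) ε hε
    refine ⟨max X₀ T₀, fun X hX μ hμ => ?_⟩
    obtain ⟨A, hAm, hA, hT⟩ := hH1 X ((le_max_left _ _).trans hX) μ hμ
    exact ⟨A, hAm, hA, fun T hTX hTA => hl T (((le_max_right _ _).trans hX).trans hTX.1) μ (hT T hTX hTA)⟩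
  · obtain ⟨c, T₀, hc, hT₀, hlow⟩ := lower' hk N (θ := s / 8) (θ' := s / 4) (by linarith) (by linarith)
    obtain ⟨η, hη, hH⟩ := heights hs0 hs (θ := s / 8) (by linarith) (by linarith)
    have h1 : ∀ K : ℝ, ∃ X₀ : ℝ, ∀ X : ℝ, X₀ ≤ X → ∀ μ : Measure ℝ, Frostman s K μ →
        ∃ A : Set ℝ, MeasurableSet A ∧ volume A ≤ ENNReal.ofReal (X ^ (1 - η)) ∧ ∀ T ∈ Icc X (2 * X), T ∉ A →
          ENNReal.ofReal (c * Real.log T ^ (k ^ 2)) ≤ ∫⁻ x, localMoment k N T (T * x) ∂μ := by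
      intro K
      obtain ⟨X₀, hX₀, hH1⟩ := hH K
      refine ⟨max X₀ T₀, fun X hX μ hμ => ?_⟩
      obtain ⟨A, hAm, hA, hT⟩ := hH1 X ((le_max_left _ _).trans hX) μ hμ
      refine ⟨A, hAm, hA, fun T hTX hTA => ?_⟩
      have hTT : T₀ ≤ T := ((le_max_right _ _).trans hX).trans hTX.1
      have hT0 : 0 < T := (Real.exp_pos 1).trans_le (hT₀.trans hTT)
      rw [← lint_map k N μ hT0.ne']
      exact hlow T hTT _ (hT T hTX hTA)
    refine ⟨c, η, hc, hη, h1, fun E hE hE2 hdim => ?_⟩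
    have hcont := R280.HC.C0H.main ℝ s hs0 E hdim
    obtain ⟨κ, hκ0, hκ⟩ : ∃ κ : ℝ, 0 < κ ∧ ENNReal.ofReal κ ≤ R280.HC.cont s E := by
      obtain ⟨κ, hκ1, hκ2⟩ := exists_between hcont
      have hne : κ ≠ ⊤ := hκ2.ne_top
      refine ⟨κ.toReal, ENNReal.toReal_pos hκ1.ne' hne, ?_⟩
      rw [ENNReal.ofReal_toReal hne]
      exact hκ2.le
    obtain ⟨μ, hμ1, hμ2, hμ3⟩ := R280.HC.FL.main R280.HC.C0.main R280.HC.WL.main R280.HC.SA.main R280.HC.SB.main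
      ℝ E hE s hs0 κ hκ0 hκ
    have hμE : ∀ᵐ x ∂μ, x ∈ E := hμ2
    have hF : Frostman s (2 * 120 ^ s / κ) μ := ⟨⟨hμ1, by
      filter_upwards [hμE] with x hx
      exact hE2 hx⟩, hμ3⟩
    obtain ⟨X₀, hX₀⟩ := h1 (2 * 120 ^ s / κ)
    refine ⟨X₀, fun X hX => ?_⟩
    obtain ⟨A, hAm, hA, hT⟩ := hX₀ X hX μ hF
    refine ⟨A, hAm, hA, fun T hTX hTA => ?_⟩
    by_contra hcon
    push Not at hcon
    have h5 := hT T hTX hTA
    by_cases htop : ∫⁻ x, localMoment k N T (T * x) ∂μ = ⊤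
    · have h6 : ∫⁻ x, localMoment k N T (T * x) ∂μ ≤ ∫⁻ _, ENNReal.ofReal (c * Real.log T ^ (k ^ 2)) ∂μ := by
        refine lintegral_mono_ae ?_
        filter_upwards [hμE] with x hx
        exact (hcon x hx).le
      rw [htop] at h6
      simp at h6
    · obtain ⟨x, hx, hx2⟩ := exists_notMem_null_lintegral_le htop hμ2
      have hxE : x ∈ E := by simpa using hx
      exact absurd (h5.trans hx2) (not_le.2 (hcon x hxE))
  · obtain ⟨θ₁, h1, h2⟩ := exists_between (max_lt hθ hσ0 : max θ 0 < σ)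
    obtain ⟨T₀, hT₀, hl⟩ := hlim (θ := max θ 0) (θ' := θ₁) (le_max_right _ _) h1 hψ hc
      (fun ξ hξ => hψ0 ξ (lt_of_le_of_lt (by have := le_max_left θ 0; linarith) hξ)) ε hε
    obtain ⟨T₁, hT₁, hd⟩ := dilated hσ0 hσ1 (le_max_right K 0) h2
    refine ⟨max T₀ T₁, fun T hT μ hμ hdec => hl T ((le_max_left _ _).trans hT) μ ?_⟩
    have hT0 : 0 < T := by linarith [hT₁.trans ((le_max_right _ _).trans hT)]
    exact hd T ((le_max_right _ _).trans hT) μ hμ.1 hμ.2 (fun u hu => (hdec u hu).trans (by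
      have := le_max_left K 0
      gcongr)) _ (by positivity)
  · obtain ⟨c, T₀, hc, hT₀, hlow⟩ := lower' hk N (θ := σ / 4) (θ' := σ / 2) (by linarith) (by linarith)
    refine ⟨c, hc, fun K => ?_⟩
    obtain ⟨T₁, hT₁, hd⟩ := dilated hσ0 hσ1 (le_max_right K 0) (show σ / 2 < σ by linarith)
    refine ⟨max T₀ T₁, fun T hT μ hμ hdec => ?_⟩
    have hTT : T₀ ≤ T := (le_max_left _ _).trans hT
    have hT0 : 0 < T := (Real.exp_pos 1).trans_le (hT₀.trans hTT)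
    rw [← lint_map k N μ hT0.ne']
    exact hlow T hTT _ (hd T ((le_max_right _ _).trans hT) μ hμ.1 hμ.2 (fun u hu => (hdec u hu).trans (by
      have := le_max_left K 0
      gcongr)) _ (by positivity))

end

end Pool.Agent.Results.MP_069854_nt.FractalHeights
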