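import Pool.Agent.U575.PL.Ks2

set_option autoImplicit false

/-!
# The limits of Kösters for the shifted moments, just off the critical line
-/

namespace Pool.Agent.Results.MP_069854_nt.KostersOffTheLine

open MeasureTheory Filter Topology

/-- the arithmetic factor `a_k = ∏_p (1 - 1/p)^{k²} Σ_m d_k(p^m)² p^{-m}`, `d_k(p^m) = k (k+1) ... (k+m-1) / m!` -/
noncomputable def ak (k : ℝ) : ℝ :=
  ∏' p : Nat.Primes, ((1 - 1 / (p : ℝ)) ^ (k ^ 2) *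
    ∑' m : ℕ, (∏ i ∈ Finset.range m, (k + i) / ((i : ℝ) + 1)) ^ 2 * (1 / (p : ℝ)) ^ m)

/-- `∫_0^T |ζ(1/2 + d + it)|^{2k} dt` -/
noncomputable def Mom (k : ℕ) (d T : ℝ) : ℝ := ∫ t in (0:ℝ)..T, ‖riemannZeta (1 / 2 + d + t * Complex.I)‖ ^ (2 * k)

/-- the moment of the problem at distance `d` from the critical line:
`(2d)^{k²} T⁻¹ ∫_0^T ζ(1/2 + d + iαd + it)^k ζ(1/2 + d + iαd - it)^k dt` -/
noncomputable def Q (k : ℕ) (α d T : ℝ) : ℂ :=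
  (((2 * d) ^ ((k : ℝ) ^ 2) * (1 / T) : ℝ) : ℂ) * ∫ t in (0:ℝ)..T,
    riemannZeta (1 / 2 + d + Complex.I * (d * α) + Complex.I * t) ^ k *
      riemannZeta (1 / 2 + d + Complex.I * (d * α) - Complex.I * t) ^ k

/-- the same with `2k` shifts:
`(2d)^{k²} T⁻¹ ∫_0^T ∏_j ζ(1/2 + d + i(t + d α_j)) ∏_j ζ(1/2 + d - i(t + d β_j)) dt` -/
noncomputable def QQ {k : ℕ} (α β : Fin k → ℝ) (d T : ℝ) : ℂ :=
  (((2 * d) ^ ((k : ℝ) ^ 2) * (1 / T) : ℝ) : ℂ) * ∫ t in (0:ℝ)..T,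
    (∏ j, riemannZeta (1 / 2 + d + (t + d * α j) * Complex.I)) *
      ∏ j, riemannZeta (1 / 2 + d - (t + d * β j) * Complex.I)

/-- the limit `a_k (1 + iα)^{-k²}` -/
noncomputable def W (k : ℕ) (α : ℝ) : ℂ := (ak k : ℂ) * (1 + Complex.I * α) ^ (-((k : ℂ) ^ 2))

/-- the limit `a_k ∏_{j,l} (1 + i(α_j - β_l)/2)⁻¹` -/
noncomputable def WW {k : ℕ} (α β : Fin k → ℝ) : ℂ :=
  (ak k : ℂ) * ∏ j, ∏ l, (1 + Complex.I * (((α j - β l) / 2 : ℝ) : ℂ))⁻¹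

/-- the distance `C log log T / log T` -/
noncomputable def dist (C T : ℝ) : ℝ := C * Real.log (Real.log T) / Real.log T

/-- on the critical line: `∫_0^T |ζ(1/2 + it)|^{2k} dt = O(T e^{δ c(T)})` for every `δ > 0` -/
def Line (c : ℝ → ℝ) (k : ℕ) : Prop := ∀ δ : ℝ, 0 < δ → ∃ C : ℝ, ∀ᶠ T : ℝ in atTop,
  Mom k 0 T ≤ C * T * Real.exp (δ * c T)

/-- a scale: `c` is nondecreasing on `[S, ∞)`, `c(T)/log log T → ∞`, `c(T)/log T → 0`, `c(2T) ≤ K c(T)` -/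
def Scale (c : ℝ → ℝ) (S K : ℝ) : Prop := MonotoneOn c (Set.Ici S) ∧
  Tendsto (fun T => c T / Real.log (Real.log T)) atTop atTop ∧
  Tendsto (fun T => c T / Real.log T) atTop (𝓝 0) ∧ 0 < K ∧ ∀ᶠ T : ℝ in atTop, c (2 * T) ≤ K * c T

/-- distances: `d → 0`, `d(T) log T / log log T → ∞` -/
def Adm (d : ℝ → ℝ) : Prop := Tendsto d atTop (𝓝 0) ∧
  Tendsto (fun T : ℝ => d T * Real.log T / Real.log (Real.log T)) atTop atTop

/-- the Lindelöf hypothesis -/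
def Lindelof : Prop := ∀ ε : ℝ, 0 < ε → ∃ C : ℝ, ∀ t : ℝ,
  ‖riemannZeta (1 / 2 + t * Complex.I)‖ ≤ C * (1 + |t|) ^ ε

open Pool.Agent.U575

lemma Mom_eq (k : ℕ) (r T : ℝ) : Mom k r T = RO.MR k r T := by
  unfold Mom RO.MR Pool.Agent.N748.MG.mz Pool.Agent.N748.MG.pw
  congr 1
  funext t
  rw [← Real.rpow_natCast]
  push_cast
  congr 3

lemma Q_eq (k : ℕ) (α d T : ℝ) : Q k α d T = PL.KQ k α d T := rfl

lemma QQ_eq {k : ℕ} (α β : Fin k → ℝ) (d T : ℝ) : QQ α β d T = PL.KM α β d T := by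
  unfold QQ PL.KM PL.SM PL.G Pool.Agent.N748.MG.pw
  congr 2
  funext t
  congr 1
  · refine Finset.prod_congr rfl fun j _ => ?_
    congr 1
    push_cast
    ring
  · refine Finset.prod_congr rfl fun j _ => ?_
    congr 1
    push_cast
    ring

lemma ak_eq (k : ℝ) : ak k = H306R2.aF k := rfl

lemma line_iff (c : ℝ → ℝ) (k : ℕ) : Line c k ↔ RO.Line c k := by
  unfold Line RO.Line
  simp only [Mom_eq]

lemma sc_of {c : ℝ → ℝ} {S K : ℝ} (h : Scale c S K) : PL.S1 c S K := ⟨h.1, h.2.1, h.2.2.1, h.2.2.2.1, h.2.2.2.2⟩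

/-- **The limits of Kösters for the shifted moments, just off the critical line.** -/
theorem result :
    -- the scales `c`
    (∀ (c : ℝ → ℝ) (S K : ℝ), Scale c S K → ∀ k : ℕ, 1 ≤ k → List.TFAE [
      Line c k,
      ∀ δ : ℝ, 0 < δ → ∀ α β : Fin k → ℝ, Tendsto (fun T : ℝ => QQ α β (δ * c T / Real.log T) T) atTop (𝓝 (WW α β)),
      ∀ δ : ℝ, 0 < δ → ∀ α : ℝ, Tendsto (fun T : ℝ => Q k α (δ * c T / Real.log T) T) atTop (𝓝 (W k α)),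
      ∀ δ : ℝ, 0 < δ → Tendsto (fun T : ℝ => (2 * (δ * c T / Real.log T)) ^ ((k : ℝ) ^ 2) *
        (1 / T * Mom k (δ * c T / Real.log T) T)) atTop (𝓝 (ak k))]) ∧
    -- powers of the logarithm
    (∀ k : ℕ, 1 ≤ k → List.TFAE [
      ∃ A : ℝ, ∀ᶠ T : ℝ in atTop, Mom k 0 T ≤ T * Real.log T ^ A,
      ∃ C0 : ℝ, ∀ C : ℝ, C0 ≤ C → ∀ α β : Fin k → ℝ, Tendsto (fun T : ℝ => QQ α β (dist C T) T) atTop (𝓝 (WW α β)),
      ∃ C0 : ℝ, ∀ C : ℝ, C0 ≤ C → ∀ α : ℝ, Tendsto (fun T : ℝ => Q k α (dist C T) T) atTop (𝓝 (W k α)),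
      ∃ C : ℝ, 0 < C ∧ Tendsto (fun T : ℝ => (2 * dist C T) ^ ((k : ℝ) ^ 2) * (1 / T * Mom k (dist C T) T)) atTop
        (𝓝 (ak k))]) ∧
    -- the Lindelöf hypothesis
    List.TFAE [
      Lindelof,
      ∃ d : ℝ → ℝ, Adm d ∧ ∀ k : ℕ, 1 ≤ k → ∀ α β : Fin k → ℝ,
        Tendsto (fun T : ℝ => QQ α β (d T) T) atTop (𝓝 (WW α β)),
      ∃ d : ℝ → ℝ, Adm d ∧ ∀ k : ℕ, 1 ≤ k → ∀ α : ℝ, Tendsto (fun T : ℝ => Q k α (d T) T) atTop (𝓝 (W k α)),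
      ∃ d : ℝ → ℝ, Adm d ∧ ∀ k : ℕ, 1 ≤ k →
        Tendsto (fun T : ℝ => (2 * d T) ^ ((k : ℝ) ^ 2) * (1 / T * Mom k (d T) T)) atTop (𝓝 (ak k))] := by
  refine ⟨fun c S K h k hk => ?_, fun k hk => ?_, ?_⟩
  · rw [line_iff]
    simp only [QQ_eq, Q_eq, Mom_eq]
    exact PL.tfae_ks (sc_of h) hk
  · simp only [QQ_eq, Q_eq, Mom_eq]
    exact PL.tfae_pks hk
  · simp only [QQ_eq, Q_eq, Mom_eq]
    exact PL.LH_ks

end Pool.Agent.Results.MP_069854_nt.KostersOffTheLine
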