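import Pool.Agent.U761.SZ.LSK

set_option autoImplicit false

/-!
# Joint large deviations of `log ζ` at shifted points, with the Gaussian exponent, unconditionally

Let `log ζ(1/2 + it) = log |ζ(1/2 + it)| + i π S(t)`, where `π S(t) = arg ζ(1/2 + it)` is defined by continuous variation. The covariance of
`log ζ(1/2 + i(t + α))` and `log ζ(1/2 + i(t + β))` for `T < t ≤ 2T` is in the Gaussian model `∑_{p ≤ T} p^(-1 - i(α - β))`. A complex Gaussian
vector with these covariances takes values near `m_j = ∑_i z_i ∑_{p ≤ T} p^(-1 - i(α_j - α_i))`, `j = 1, ..., n`, with probability about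
`exp (-V)`, where `V = ∑_{p ≤ T} |∑_j z_j p^(iα_j)|² / p`.

Without any hypothesis: for all `A, n` there are `K, C, T₀` such that for `T ≥ T₀`, all complex `z_1, ..., z_n` with `∑ |z_j| ≤ A` and ALL real
shifts `|α_j| ≤ T/2`, the set of the `t ∈ (T, 2T]` with `|log ζ(1/2 + i(t + α_j)) - m_j| ≤ K √(log log T)` for all `j` has measure at least
`T exp (-V - C √(log log T))`.

* `n = 1`: for every complex `z` the set with `log ζ(1/2 + it) = z log log T + O(√(log log T))` has measure at least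
  `T (log T)^(-|z|²) exp (-C √(log log T))`.
* Some of the `z_j` may be `0`; then the points `t + α_j` are only observed: for instance with one `z ≠ 0` at the shift `0`, the set of the `t`
  with `log ζ(1/2 + i(t + α_j)) = z ∑_{p ≤ T} p^(-1 - iα_j) + O(√(log log T))` for `j = 1, ..., n` has measure at least
  `T (log T)^(-|z|²) exp (-C √(log log T))` (the landscape around the extreme values).
* `n = 2`: the shifts `± α / log T` and `z_1 = z_2 = k/2` give the second part, for the integrand of Kösters' shifted moments `Q_k(α, T)`: it has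
  the size `(log T)^(2k²) exp (O(√(log log T)))` on a set of measure at least `T (log T)^(-k²) exp (-C √(log log T))`; so with this precision
  the values to which random matrix theory attributes the main part of `Q_k(α, T)` occur with (at least) the predicted frequency.

The proof: a truncated exponential `E = ∑_{k ≤ K} P^k / k!` of a Dirichlet polynomial `P` supported on primes satisfies, relative to the mean value
with the weight `|E|²`, an inequality for the variance of every sum over primes (`Pool.Agent.U761.SZ.con_ineq`, `te_conc`), and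
`log ζ` is within `O(1)` in mean square of its prime sum relative to EVERY Dirichlet polynomial, with possible zeros off the line
(`Pool.Agent.U761.SZ.THH`); on the set where all these quantities are near their means `|E|²` is at most `exp (2V + O(√(log log T)))`.
-/

namespace Pool.Agent.Results.MP_069854_nt.LandscapeDeviations

open Filter Topology MeasureTheory Complex

noncomputable section

/-- `S(t) = (1/π) arg ζ(1/2 + it)`, by continuous variation along the segments from `2` to `2 + it` and from `2 + it` to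
`1/2 + it`: `(1/π) Im ∫ (ζ'/ζ)(s) ds` along this path -/
def S (t : ℝ) : ℝ := 1 / Real.pi * ((∫ u in (0 : ℝ)..t, (logDeriv riemannZeta ((2 : ℂ) + u * I)).re) -
  ∫ x in (1 / 2 : ℝ)..2, (logDeriv riemannZeta ((x : ℂ) + t * I)).im)

/-- `log ζ(1/2 + it) = log |ζ(1/2 + it)| + i π S(t)` -/
def logZeta (t : ℝ) : ℂ := (Real.log ‖riemannZeta (1 / 2 + t * I)‖ : ℂ) + (Real.pi * S t : ℝ) * I

/-- `cov(T, h) = ∑_{p ≤ T} p^(-1 - ih)` -/
def cov (T h : ℝ) : ℂ := ∑ p ∈ (Finset.Icc 1 ⌊T⌋₊).filter Nat.Prime, (p : ℂ) ^ (-(1 + h * I))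

/-- `m_j = ∑_i z_i cov(T, α_j - α_i)` -/
def center (T : ℝ) {n : ℕ} (z : Fin n → ℂ) (α : Fin n → ℝ) (j : Fin n) : ℂ := ∑ i, z i * cov T (α j - α i)

/-- `V = ∑_{p ≤ T} |∑_j z_j p^(iα_j)|² / p` -/
def V (T : ℝ) {n : ℕ} (z : Fin n → ℂ) (α : Fin n → ℝ) : ℝ :=
  ∑ p ∈ (Finset.Icc 1 ⌊T⌋₊).filter Nat.Prime, ‖∑ j, z j * (p : ℂ) ^ (α j * I)‖ ^ 2 / p

/-- the integrand `ζ(1/2 + iα/log T + it)^k ζ(1/2 + iα/log T - it)^k` of Kösters' shifted moment `Q_k(α, T)` -/
def F (k : ℕ) (α T t : ℝ) : ℂ :=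
  riemannZeta (1 / 2 + α / Real.log T * I + t * I) ^ k * riemannZeta (1 / 2 + α / Real.log T * I - t * I) ^ k

theorem logZeta_eq {t : ℝ} (h : Pool.Agent.U761.SZ.piS t = Pool.Agent.U761.SZ.aS t) : logZeta t = Pool.Agent.U761.SZ.Lz t := by
  have h1 : Real.pi * S t = Pool.Agent.U761.SZ.aS t := by
    rw [← h]
    unfold S Pool.Agent.U761.SZ.piS
    rw [← mul_assoc, mul_one_div_cancel Real.pi_ne_zero, one_mul]
  unfold logZeta Pool.Agent.U761.SZ.Lz
  rw [h1]
  apply Complex.ext <;> simp [Pool.Agent.Q97.UM.zt]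

theorem good_ae {n : ℕ} (α : Fin n → ℝ) : ∀ᵐ t : ℝ, ∀ j, riemannZeta (1 / 2 + (t + α j : ℝ) * I) ≠ 0 ∧
    logZeta (t + α j) = Pool.Agent.U761.SZ.Lz (t + α j) := by
  refine ae_all_iff.2 fun j => ?_
  have h1 : ∀ᵐ t : ℝ, riemannZeta (1 / 2 + (t : ℝ) * I) ≠ 0 ∧ logZeta t = Pool.Agent.U761.SZ.Lz t := by
    filter_upwards [Pool.Agent.U761.SZ.ae_not_ord, Pool.Agent.U761.SZ.ae_piS] with t h1 h2
    refine ⟨?_, logZeta_eq h2⟩
    have h3 := h1.2 (1 / 2)
    have e : (((1 / 2 : ℝ) : ℂ) + t * I) = 1 / 2 + t * I := by push_cast; ring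
    rwa [e] at h3
  exact (measurePreserving_add_right (volume : Measure ℝ) (α j)).quasiMeasurePreserving.ae h1

theorem center_eq (T : ℝ) {n : ℕ} (z : Fin n → ℂ) (α : Fin n → ℝ) (j : Fin n) :
    ∑ p ∈ (Finset.Icc 1 ⌊T⌋₊).filter Nat.Prime, (p : ℂ) ^ (-(α j * I)) * (starRingEnd ℂ) (Pool.Agent.U761.SZ.apc z α p) / p =
      center T z α j := by
  unfold center cov
  simp_rw [Finset.mul_sum]
  rw [Finset.sum_comm]
  refine Finset.sum_congr rfl fun p hp => ?_
  have hp0 : (p : ℂ) ≠ 0 := by exact_mod_cast (Finset.mem_filter.1 hp).2.ne_zero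
  unfold Pool.Agent.U761.SZ.apc
  rw [map_sum, Finset.mul_sum, Finset.sum_div]
  refine Finset.sum_congr rfl fun i _ => ?_
  rw [map_mul, conj_conj]
  have e1 : (starRingEnd ℂ) ((p : ℂ) ^ (-(α i * I))) = (p : ℂ) ^ (α i * I) := by
    rw [cpow_def_of_ne_zero hp0, cpow_def_of_ne_zero hp0, ← exp_conj]
    congr 1
    rw [map_mul, map_neg, map_mul, conj_I, conj_ofReal, ← natCast_log, conj_ofReal]
    ring
  have e2 : (p : ℂ) ^ (-(1 + ((α j - α i : ℝ) : ℂ) * I)) = (p : ℂ) ^ (-(α j * I)) * (p : ℂ) ^ (α i * I) / p := by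
    rw [div_eq_mul_inv, ← cpow_neg_one, ← cpow_add _ _ hp0, ← cpow_add _ _ hp0]
    congr 1
    push_cast
    ring
  rw [e1, e2]
  ring

theorem V_eq (T : ℝ) {n : ℕ} (z : Fin n → ℂ) (α : Fin n → ℝ) :
    ∑ p ∈ (Finset.Icc 1 ⌊T⌋₊).filter Nat.Prime, ‖Pool.Agent.U761.SZ.apc z α p‖ ^ 2 / p = V T z α := by
  unfold V
  refine Finset.sum_congr rfl fun p hp => ?_
  rw [Pool.Agent.U761.SZ.apc_conj z α p (Finset.mem_filter.1 hp).2]

/-- the joint law -/
theorem part1 (A : ℝ) (n : ℕ) : ∃ K C T₀ : ℝ, 0 < K ∧ 0 < C ∧ ∀ T : ℝ, T₀ ≤ T → ∀ (z : Fin n → ℂ) (α : Fin n → ℝ),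
    ∑ j, ‖z j‖ ≤ A → (∀ j, |α j| ≤ T / 2) →
      T * Real.exp (-V T z α - C * Real.sqrt (Real.log (Real.log T))) ≤
        volume.real {t : ℝ | T < t ∧ t ≤ 2 * T ∧ ∀ j, riemannZeta (1 / 2 + (t + α j : ℝ) * I) ≠ 0 ∧
          ‖logZeta (t + α j) - center T z α j‖ ≤ K * Real.sqrt (Real.log (Real.log T))} := by
  obtain ⟨K, C, hK, hC, h⟩ := Pool.Agent.U761.SZ.lsd (le_max_right A 1) n
  obtain ⟨T₀, hT₀⟩ := Filter.eventually_atTop.1 h
  refine ⟨K, C, T₀, hK, hC, fun T hT z α hz hα => ?_⟩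
  have h1 := (hT₀ T hT).2 z α (hz.trans (le_max_left _ _)) hα
  rw [V_eq] at h1
  simp only [center_eq] at h1
  refine h1.trans (le_of_eq ?_)
  rw [measureReal_def]
  congr 1
  refine measure_congr ?_
  filter_upwards [good_ae α] with t ht
  refine propext ?_
  show (T < t ∧ t ≤ 2 * T ∧ ∀ j, ‖Pool.Agent.U761.SZ.Lz (t + α j) - center T z α j‖ ≤ K * Real.sqrt (Real.log (Real.log T))) ↔
    (T < t ∧ t ≤ 2 * T ∧ ∀ j, riemannZeta (1 / 2 + (t + α j : ℝ) * I) ≠ 0 ∧
      ‖logZeta (t + α j) - center T z α j‖ ≤ K * Real.sqrt (Real.log (Real.log T)))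
  constructor
  · rintro ⟨a1, a2, a3⟩
    exact ⟨a1, a2, fun j => ⟨(ht j).1, by rw [(ht j).2]; exact a3 j⟩⟩
  · rintro ⟨a1, a2, a3⟩
    exact ⟨a1, a2, fun j => by rw [← (ht j).2]; exact (a3 j).2⟩

theorem norm_F (k : ℕ) (α T t : ℝ) : ‖F k α T t‖ = ‖riemannZeta (1 / 2 + (t + α / Real.log T : ℝ) * I)‖ ^ k *
    ‖riemannZeta (1 / 2 + (t + -(α / Real.log T) : ℝ) * I)‖ ^ k := by
  unfold F
  rw [norm_mul, norm_pow, norm_pow]
  congr 2
  · congr 2
    push_cast
    ring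
  · rw [← RCLike.norm_conj, ← riemannZeta_conj]
    congr 2
    simp only [map_sub, map_add, map_mul, map_div₀, conj_I, conj_ofReal, map_one, map_ofNat]
    push_cast
    ring

/-- the integrand of Kösters' shifted moments -/
theorem part2 (k : ℕ) (α : ℝ) : ∃ K C T₀ : ℝ, 0 < K ∧ 0 < C ∧ ∀ T : ℝ, T₀ ≤ T →
    T / Real.log T ^ (k ^ 2) * Real.exp (-(C * Real.sqrt (Real.log (Real.log T)))) ≤
      volume.real {t : ℝ | T < t ∧ t ≤ 2 * T ∧
        Real.log T ^ (2 * k ^ 2) * Real.exp (-(K * Real.sqrt (Real.log (Real.log T)))) ≤ ‖F k α T t‖ ∧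
        ‖F k α T t‖ ≤ Real.log T ^ (2 * k ^ 2) * Real.exp (K * Real.sqrt (Real.log (Real.log T)))} := by
  obtain ⟨K, C, T₀, hK, hC, h⟩ := part1 k 2
  obtain ⟨D, hD, hnear⟩ := Pool.Agent.U761.SZ.near
  have hll : ∀ᶠ T : ℝ in atTop, 1 ≤ Real.log (Real.log T) :=
    (Real.tendsto_log_atTop.comp Real.tendsto_log_atTop).eventually_ge_atTop 1
  obtain ⟨T₁, hT₁⟩ := Filter.eventually_atTop.1 (hll.and (Real.tendsto_log_atTop.eventually_ge_atTop 1))
  obtain ⟨D', hD'⟩ : ∃ D' : ℝ, D' = k * (D + 2 * |α| * (1 + D)) := ⟨_, rfl⟩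
  have hD'0 : 0 ≤ D' := by rw [hD']; positivity
  refine ⟨2 * k * (K + D') + 1, C + k ^ 2 * D, max (max T₀ T₁) (max 3 (2 * |α|)), by positivity, by positivity, fun T hT => ?_⟩
  have hT0 : T₀ ≤ T := (le_max_left _ _).trans ((le_max_left _ _).trans hT)
  obtain ⟨hv1, hL1⟩ := hT₁ T ((le_max_right _ _).trans ((le_max_left _ _).trans hT))
  have hT3 : 3 ≤ T := (le_max_left _ _).trans ((le_max_right _ _).trans hT)
  have hTα : 2 * |α| ≤ T := (le_max_right _ _).trans ((le_max_right _ _).trans hT)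
  obtain ⟨L, hL⟩ : ∃ L : ℝ, L = Real.log T := ⟨_, rfl⟩
  obtain ⟨v, hv⟩ : ∃ v : ℝ, v = Real.log L := ⟨_, rfl⟩
  rw [← hL] at hv1 hL1
  rw [← hv] at hv1
  have hL0 : 0 < L := by linarith
  have hsv : 1 ≤ Real.sqrt v := Real.one_le_sqrt.2 hv1
  obtain ⟨a, ha⟩ : ∃ a : ℝ, a = α / L := ⟨_, rfl⟩
  have haα : |a| ≤ |α| := by
    rw [ha, abs_div, abs_of_pos hL0]
    exact div_le_self (abs_nonneg _) hL1
  have haL : |a| * L = |α| := by
    rw [ha, abs_div, abs_of_pos hL0, div_mul_cancel₀ _ hL0.ne']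
  obtain ⟨z, hz⟩ : ∃ z : Fin 2 → ℂ, z = fun _ => (k : ℂ) / 2 := ⟨_, rfl⟩
  obtain ⟨β, hβ⟩ : ∃ β : Fin 2 → ℝ, β = ![a, -a] := ⟨_, rfl⟩
  have hzn : ∀ j, ‖z j‖ = k / 2 := by
    intro j
    rw [hz]
    simp
  have hz1 : ∑ j, ‖z j‖ ≤ (k : ℝ) := by
    rw [Fin.sum_univ_two, hzn, hzn]
    linarith
  have hβ1 : ∀ j, |β j| ≤ |α| := by
    intro j
    rw [hβ]
    fin_cases j
    · simpa using haα
    · simpa using haα
  have h1 := h T hT0 z β hz1 (fun j => (hβ1 j).trans (by linarith))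
  obtain ⟨n1, n2⟩ := hnear T hT3
  rw [← hL, ← hv] at h1 n1 n2 ⊢
  -- the exponent
  have hV : V T z β ≤ k ^ 2 * (v + D) := by
    unfold V
    have h2 : ∀ p ∈ (Finset.Icc 1 ⌊T⌋₊).filter Nat.Prime, ‖∑ j, z j * (p : ℂ) ^ (β j * I)‖ ^ 2 / p ≤ (k : ℝ) ^ 2 * (1 / p) := by
      intro p hp
      have hp' := (Finset.mem_filter.1 hp).2.pos
      rw [mul_one_div]
      refine div_le_div_of_nonneg_right (pow_le_pow_left₀ (norm_nonneg _) ?_ 2) (Nat.cast_nonneg p)
      refine (norm_sum_le _ _).trans (le_trans (Finset.sum_le_sum fun j _ => ?_) hz1)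
      rw [norm_mul, Complex.norm_natCast_cpow_of_pos hp']
      simp
    refine (Finset.sum_le_sum h2).trans ?_
    rw [← Finset.mul_sum]
    refine mul_le_mul_of_nonneg_left ?_ (by positivity)
    linarith [(abs_le.1 n1).2]
  -- the centers
  have hcen : ∀ j, ‖center T z β j - ((k * v : ℝ) : ℂ)‖ ≤ D' := by
    intro j
    have h2 : ∀ i, ‖cov T (β j - β i) - (v : ℂ)‖ ≤ D + 2 * |α| * (1 + D) := by
      intro i
      refine (n2 (β j - β i)).trans ?_
      have h3 : |β j - β i| ≤ 2 * |a| := by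
        have g : ∀ j, |β j| ≤ |a| := by
          intro j
          rw [hβ]
          fin_cases j <;> simp
        refine (abs_sub _ _).trans ?_
        linarith [g j, g i]
      have h4 : |β j - β i| * (L + D) ≤ 2 * |a| * (L + D) := mul_le_mul_of_nonneg_right h3 (by linarith)
      have h5 : 2 * |a| * D ≤ 2 * |α| * D := mul_le_mul_of_nonneg_right (by linarith) hD
      linarith [show 2 * |a| * (L + D) = 2 * (|a| * L) + 2 * |a| * D by ring]
    have h6 : center T z β j - ((k * v : ℝ) : ℂ) = ∑ i, z i * (cov T (β j - β i) - (v : ℂ)) := by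
      unfold center
      simp only [mul_sub, Finset.sum_sub_distrib]
      congr 1
      rw [hz, Fin.sum_univ_two]
      push_cast
      ring
    rw [h6]
    refine (norm_sum_le _ _).trans ?_
    rw [Fin.sum_univ_two, norm_mul, norm_mul, hzn, hzn, hD']
    have h7 := mul_le_mul_of_nonneg_left (h2 0) (show (0 : ℝ) ≤ k / 2 by positivity)
    have h8 := mul_le_mul_of_nonneg_left (h2 1) (show (0 : ℝ) ≤ k / 2 by positivity)
    linarith
  refine le_trans ?_ (h1.trans ?_)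
  · have hLk : L ^ (k ^ 2) = Real.exp (k ^ 2 * v) := by
      rw [← Real.exp_log hL0, ← hv, ← Real.exp_nat_mul]
      push_cast
      rfl
    rw [hLk, div_eq_mul_inv, ← Real.exp_neg, mul_assoc, ← Real.exp_add]
    refine mul_le_mul_of_nonneg_left (Real.exp_le_exp.2 ?_) (by linarith)
    have h9 : (k : ℝ) ^ 2 * D * 1 ≤ k ^ 2 * D * Real.sqrt v := mul_le_mul_of_nonneg_left hsv (by positivity)
    linarith [show ((C + k ^ 2 * D) * Real.sqrt v) = C * Real.sqrt v + k ^ 2 * D * Real.sqrt v by ring]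
  · refine measureReal_mono ?_ ?_
    · rintro t ⟨t1, t2, t3⟩
      refine ⟨t1, t2, ?_⟩
      have key : ∀ j, riemannZeta (1 / 2 + (t + β j : ℝ) * I) ≠ 0 ∧
          |Real.log ‖riemannZeta (1 / 2 + (t + β j : ℝ) * I)‖ - k * v| ≤ (K + D') * Real.sqrt v := by
        intro j
        obtain ⟨s1, s2⟩ := t3 j
        refine ⟨s1, ?_⟩
        have g1 : ‖logZeta (t + β j) - ((k * v : ℝ) : ℂ)‖ ≤ (K + D') * Real.sqrt v := by
          have e : logZeta (t + β j) - ((k * v : ℝ) : ℂ) = (logZeta (t + β j) - center T z β j) + (center T z β j - ((k * v : ℝ) : ℂ)) := by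
            ring
          rw [e]
          refine (norm_add_le _ _).trans ?_
          have g2 : D' * 1 ≤ D' * Real.sqrt v := mul_le_mul_of_nonneg_left hsv hD'0
          linarith [hcen j, show (K + D') * Real.sqrt v = K * Real.sqrt v + D' * Real.sqrt v by ring]
        have g3 := (Complex.abs_re_le_norm _).trans g1
        have g4 : (logZeta (t + β j) - ((k * v : ℝ) : ℂ)).re = Real.log ‖riemannZeta (1 / 2 + (t + β j : ℝ) * I)‖ - k * v := by
          unfold logZeta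
          simp
        rwa [g4] at g3
      obtain ⟨c1, c2⟩ := key 0
      obtain ⟨c3, c4⟩ := key 1
      have b0 : β 0 = α / L := by rw [hβ, ha]; rfl
      have b1 : β 1 = -(α / L) := by rw [hβ, ha]; rfl
      rw [b0] at c1 c2
      rw [b1] at c3 c4
      rw [norm_F, ← hL]
      have hL2 : L ^ (2 * k ^ 2) = Real.exp (2 * k ^ 2 * v) := by
        rw [← Real.exp_log hL0, ← hv, ← Real.exp_nat_mul]
        push_cast
        rfl
      have e1 : ‖riemannZeta (1 / 2 + (t + α / L : ℝ) * I)‖ ^ k * ‖riemannZeta (1 / 2 + (t + -(α / L) : ℝ) * I)‖ ^ k =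
          Real.exp (k * Real.log ‖riemannZeta (1 / 2 + (t + α / L : ℝ) * I)‖ + k * Real.log ‖riemannZeta (1 / 2 + (t + -(α / L) : ℝ) * I)‖) := by
        rw [Real.exp_add, Real.exp_nat_mul, Real.exp_nat_mul, Real.exp_log (norm_pos_iff.2 c1), Real.exp_log (norm_pos_iff.2 c3)]
      rw [e1, hL2, ← Real.exp_add, ← Real.exp_add, Real.exp_le_exp, Real.exp_le_exp]
      obtain ⟨u1, u2⟩ := abs_le.1 c2
      obtain ⟨u3, u4⟩ := abs_le.1 c4
      have hk0 : (0 : ℝ) ≤ k := Nat.cast_nonneg k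
      have w1 := mul_le_mul_of_nonneg_left u1 hk0
      have w2 := mul_le_mul_of_nonneg_left u2 hk0
      have w3 := mul_le_mul_of_nonneg_left u3 hk0
      have w4 := mul_le_mul_of_nonneg_left u4 hk0
      have hs0 := Real.sqrt_nonneg v
      constructor
      · linarith [show (2 * k * (K + D') + 1) * Real.sqrt v = 2 * (k * ((K + D') * Real.sqrt v)) + Real.sqrt v by ring,
          show (k : ℝ) * -((K + D') * Real.sqrt v) = -(k * ((K + D') * Real.sqrt v)) by ring]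
      · linarith [show (2 * k * (K + D') + 1) * Real.sqrt v = 2 * (k * ((K + D') * Real.sqrt v)) + Real.sqrt v by ring]
    · exact ((measure_mono (t := Set.Ioc T (2 * T)) (fun t ht => ⟨ht.1, ht.2.1⟩)).trans_lt (by
        rw [Real.volume_Ioc]; exact ENNReal.ofReal_lt_top)).ne

/-- **Joint large deviations of `log ζ` at shifted points, with the Gaussian exponent.** -/
theorem result :
    (∀ (A : ℝ) (n : ℕ), ∃ K C T₀ : ℝ, 0 < K ∧ 0 < C ∧ ∀ T : ℝ, T₀ ≤ T → ∀ (z : Fin n → ℂ) (α : Fin n → ℝ),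
      ∑ j, ‖z j‖ ≤ A → (∀ j, |α j| ≤ T / 2) →
        T * Real.exp (-V T z α - C * Real.sqrt (Real.log (Real.log T))) ≤
          volume.real {t : ℝ | T < t ∧ t ≤ 2 * T ∧ ∀ j, riemannZeta (1 / 2 + (t + α j : ℝ) * I) ≠ 0 ∧
            ‖logZeta (t + α j) - center T z α j‖ ≤ K * Real.sqrt (Real.log (Real.log T))}) ∧
    (∀ (k : ℕ) (α : ℝ), ∃ K C T₀ : ℝ, 0 < K ∧ 0 < C ∧ ∀ T : ℝ, T₀ ≤ T →
      T / Real.log T ^ (k ^ 2) * Real.exp (-(C * Real.sqrt (Real.log (Real.log T)))) ≤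
        volume.real {t : ℝ | T < t ∧ t ≤ 2 * T ∧
          Real.log T ^ (2 * k ^ 2) * Real.exp (-(K * Real.sqrt (Real.log (Real.log T)))) ≤ ‖F k α T t‖ ∧
          ‖F k α T t‖ ≤ Real.log T ^ (2 * k ^ 2) * Real.exp (K * Real.sqrt (Real.log (Real.log T)))}) :=
  ⟨part1, part2⟩

end

end Pool.Agent.Results.MP_069854_nt.LandscapeDeviations
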